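import Mathlib

/-!
# The static inequality (SI3) / (C2) implies the even half of Q1 of MP_f155e9_co (helper31, helper58)

For antichains `F`, `G` on an `n`-set and `u = |A \ B|`, `v = |B \ A|`: if `|F||G| > C(n,s)^2` then one of the three sums
of `u v`, `v (v-1)`, `u (u-1)` over `A ∈ F`, `B ∈ G` is larger than `n (n-1) C(n-2,s-1)^2`.
-/

set_option autoImplicit false

namespace Pool.Agent.MidF.S2

open Finset

/-- The static inequality (SI3) for `(n,s)`. -/
def SI3 (n s : ℕ) : Prop :=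
  ∀ (α : Type) [Fintype α] [DecidableEq α], Fintype.card α = n → ∀ F G : Finset (Finset α),
    IsAntichain (· ⊆ ·) (F : Set (Finset α)) → IsAntichain (· ⊆ ·) (G : Set (Finset α)) →
    (n.choose s) ^ 2 < F.card * G.card →
      n * (n - 1) * ((n - 2).choose (s - 1)) ^ 2 < ∑ A ∈ F, ∑ B ∈ G, (A \ B).card * (B \ A).card ∨
      n * (n - 1) * ((n - 2).choose (s - 1)) ^ 2 < ∑ A ∈ F, ∑ B ∈ G, (B \ A).card * ((B \ A).card - 1) ∨
      n * (n - 1) * ((n - 2).choose (s - 1)) ^ 2 < ∑ A ∈ F, ∑ B ∈ G, (A \ B).card * ((A \ B).card - 1)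

variable {α : Type} [DecidableEq α]

/-- The members `A` of `F` with `x ∈ A ↔ a`, `y ∈ A ↔ b`. -/
def pat (F : Finset (Finset α)) (x y : α) (a b : Bool) : Finset (Finset α) :=
  F.filter fun A => decide (x ∈ A) = a ∧ decide (y ∈ A) = b

/-- The section of `F` at the pattern `(a,b)` on `x, y`. -/
def sec (F : Finset (Finset α)) (x y : α) (a b : Bool) : Finset (Finset {z : α // z ≠ x ∧ z ≠ y}) :=
  (pat F x y a b).image fun A => A.subtype fun z => z ≠ x ∧ z ≠ y

/-- The step (STEP-2) for `(n,s)`. -/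
def Step2 (n s : ℕ) : Prop :=
  ∀ (α : Type) [Fintype α] [DecidableEq α], Fintype.card α = n → ∀ F G : Finset (Finset α),
    IsAntichain (· ⊆ ·) (F : Set (Finset α)) → IsAntichain (· ⊆ ·) (G : Set (Finset α)) →
    (n.choose s) ^ 2 < F.card * G.card →
      ∃ x y : α, x ≠ y ∧ ∃ a b : Bool,
        ((n - 2).choose (s - 1)) ^ 2 < (pat F x y a b).card * (pat G x y (!a) (!b)).card

theorem mem_pat {F : Finset (Finset α)} {x y : α} {a b : Bool} {A : Finset α} :
    A ∈ pat F x y a b ↔ A ∈ F ∧ decide (x ∈ A) = a ∧ decide (y ∈ A) = b := by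
  unfold pat
  rw [mem_filter]

theorem eq_of_subtype_eq {x y : α} {A B : Finset α} (hx : decide (x ∈ A) = decide (x ∈ B))
    (hy : decide (y ∈ A) = decide (y ∈ B))
    (h : A.subtype (fun z => z ≠ x ∧ z ≠ y) = B.subtype (fun z => z ≠ x ∧ z ≠ y)) : A = B := by
  ext z
  by_cases h1 : z = x
  · rw [h1]
    exact decide_eq_decide.1 hx
  · by_cases h2 : z = y
    · rw [h2]
      exact decide_eq_decide.1 hy
    · have := congrArg (fun S => (⟨z, h1, h2⟩ : {z : α // z ≠ x ∧ z ≠ y}) ∈ S) h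
      simpa using this

theorem card_sec (F : Finset (Finset α)) (x y : α) (a b : Bool) :
    (sec F x y a b).card = (pat F x y a b).card := by
  unfold sec
  refine card_image_of_injOn ?_
  intro A hA B hB h
  rw [mem_coe, mem_pat] at hA hB
  exact eq_of_subtype_eq (hA.2.1.trans hB.2.1.symm) (hA.2.2.trans hB.2.2.symm) h

theorem antichain_sec {F : Finset (Finset α)} (hF : IsAntichain (· ⊆ ·) (F : Set (Finset α)))
    (x y : α) (a b : Bool) :
    IsAntichain (· ⊆ ·) (sec F x y a b : Set (Finset {z : α // z ≠ x ∧ z ≠ y})) := by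
  intro A' hA' B' hB' hne hsub
  rw [mem_coe, sec, mem_image] at hA' hB'
  obtain ⟨A, hA, rfl⟩ := hA'
  obtain ⟨B, hB, rfl⟩ := hB'
  rw [mem_pat] at hA hB
  refine hF hA.1 hB.1 (fun h => hne (by rw [h])) ?_
  intro z hz
  by_cases h1 : z = x
  · rw [h1] at hz ⊢
    have := decide_eq_decide.1 (hA.2.1.trans hB.2.1.symm)
    exact this.1 hz
  · by_cases h2 : z = y
    · rw [h2] at hz ⊢
      have := decide_eq_decide.1 (hA.2.2.trans hB.2.2.symm)
      exact this.1 hz
    · have h3 : (⟨z, h1, h2⟩ : {z : α // z ≠ x ∧ z ≠ y}) ∈ A.subtype fun z => z ≠ x ∧ z ≠ y := by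
        rw [mem_subtype]
        exact hz
      have h4 := hsub h3
      rw [mem_subtype] at h4
      exact h4

theorem card_symmDiff_subtype {x y : α} (hxy : x ≠ y) {A B : Finset α}
    (hx : decide (x ∈ A) = !decide (x ∈ B)) (hy : decide (y ∈ A) = !decide (y ∈ B)) :
    (symmDiff (A.subtype fun z => z ≠ x ∧ z ≠ y) (B.subtype fun z => z ≠ x ∧ z ≠ y)).card + 2 =
      (symmDiff A B).card := by
  have hx' : x ∈ symmDiff A B := by
    rw [mem_symmDiff]
    by_cases h1 : x ∈ A <;> by_cases h2 : x ∈ B <;> simp_all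
  have hy' : y ∈ symmDiff A B := by
    rw [mem_symmDiff]
    by_cases h1 : y ∈ A <;> by_cases h2 : y ∈ B <;> simp_all
  have h1 : (symmDiff (A.subtype fun z => z ≠ x ∧ z ≠ y) (B.subtype fun z => z ≠ x ∧ z ≠ y)).map
      (Function.Embedding.subtype _) = ((symmDiff A B).erase x).erase y := by
    ext z
    simp only [mem_map, Function.Embedding.coe_subtype, mem_erase, mem_symmDiff, mem_subtype]
    constructor
    · rintro ⟨w, hw, rfl⟩
      exact ⟨w.2.2, w.2.1, hw⟩
    · rintro ⟨h2, h3, h4⟩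
      exact ⟨⟨z, h3, h2⟩, h4, rfl⟩
  have h2 := congrArg Finset.card h1
  rw [card_map, card_erase_of_mem (mem_erase.2 ⟨hxy.symm, hy'⟩), card_erase_of_mem hx'] at h2
  have h3 : 2 ≤ (symmDiff A B).card := by
    have : ({x, y} : Finset α) ⊆ symmDiff A B := by
      intro z hz
      rw [mem_insert, mem_singleton] at hz
      rcases hz with rfl | rfl
      · exact hx'
      · exact hy'
    have h4 := card_le_card this
    rwa [card_pair hxy] at h4
  omega

theorem card_subtype [Fintype α] (x y : α) (hxy : x ≠ y) :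
    Fintype.card {z : α // z ≠ x ∧ z ≠ y} = Fintype.card α - 2 := by
  rw [Fintype.card_subtype]
  have : (univ.filter fun z : α => z ≠ x ∧ z ≠ y) = (univ.erase x).erase y := by
    ext z
    simp only [mem_filter, mem_univ, true_and, mem_erase, and_true]
    tauto
  rw [this, card_erase_of_mem (mem_erase.2 ⟨hxy.symm, mem_univ _⟩), card_erase_of_mem (mem_univ _),
    card_univ]
  rfl

/-- The product bound: cross distances at most `2 s` imply `|F||G| ≤ C(n,s)^2`. -/
theorem product_bound (k : ℕ) (hk : 1 ≤ k) (h : ∀ s : ℕ, 1 ≤ s → Step2 (k + 2 * s) s) :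
    ∀ s : ℕ, ∀ (α : Type) [Fintype α] [DecidableEq α], Fintype.card α = k + 2 * s →
      ∀ F G : Finset (Finset α), IsAntichain (· ⊆ ·) (F : Set (Finset α)) →
        IsAntichain (· ⊆ ·) (G : Set (Finset α)) →
        (∀ A ∈ F, ∀ B ∈ G, (symmDiff A B).card ≤ 2 * s) →
          F.card * G.card ≤ ((k + 2 * s).choose s) ^ 2 := by
  intro s
  induction s with
  | zero =>
    intro α _ _ _ F G _ _ hd
    have h1 : ∀ A ∈ F, ∀ B ∈ G, A = B := by
      intro A hA B hB
      have h2 := hd A hA B hB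
      have h3 : (symmDiff A B).card = 0 := by omega
      rw [card_eq_zero] at h3
      exact symmDiff_eq_bot.1 h3
    rcases F.eq_empty_or_nonempty with rfl | ⟨A, hA⟩
    · simp
    rcases G.eq_empty_or_nonempty with rfl | ⟨B, hB⟩
    · simp
    have hF1 : F.card ≤ 1 := by
      rw [card_le_one]
      intro C hC D hD
      rw [h1 C hC B hB, h1 D hD B hB]
    have hG1 : G.card ≤ 1 := by
      rw [card_le_one]
      intro C hC D hD
      rw [← h1 A hA C hC, ← h1 A hA D hD]
    simp only [Nat.choose_zero_right, one_pow]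
    nlinarith
  | succ s ih =>
    intro α _ _ hα F G hF hG hd
    by_contra hcon
    push Not at hcon
    obtain ⟨x, y, hxy, a, b, hab⟩ := h (s + 1) (by omega) α hα F G hF hG hcon
    have e1 : k + 2 * (s + 1) - 2 = k + 2 * s := by omega
    have e2 : s + 1 - 1 = s := by omega
    rw [e1, e2, ← card_sec, ← card_sec] at hab
    have h1 := ih {z : α // z ≠ x ∧ z ≠ y} (by rw [card_subtype x y hxy, hα]; omega) (sec F x y a b)
      (sec G x y (!a) (!b)) (antichain_sec hF x y a b) (antichain_sec hG x y (!a) (!b)) (by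
        intro A' hA' B' hB'
        rw [sec, mem_image] at hA' hB'
        obtain ⟨A, hA, rfl⟩ := hA'
        obtain ⟨B, hB, rfl⟩ := hB'
        rw [mem_pat] at hA hB
        have h2 := card_symmDiff_subtype hxy (A := A) (B := B) (by rw [hA.2.1, hB.2.1, Bool.not_not])
          (by rw [hA.2.2, hB.2.2, Bool.not_not])
        have h3 := hd A hA.1 B hB.1
        omega)
    omega

/-- Double counting of pairs. -/
theorem sum_eq [Fintype α] (F G : Finset (Finset α)) (a b : Bool) :
    ∑ A ∈ F, ∑ B ∈ G, ((univ : Finset α).offDiag.filter fun p =>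
        (decide (p.1 ∈ A) = a ∧ decide (p.2 ∈ A) = b) ∧
          (decide (p.1 ∈ B) = !a ∧ decide (p.2 ∈ B) = !b)).card =
      ∑ p ∈ (univ : Finset α).offDiag, (pat F p.1 p.2 a b).card * (pat G p.1 p.2 (!a) (!b)).card := by
  rw [← sum_product']
  have h := sum_card_bipartiteAbove_eq_sum_card_bipartiteBelow (s := F ×ˢ G)
    (t := (univ : Finset α).offDiag) (r := fun q p =>
      (decide (p.1 ∈ q.1) = a ∧ decide (p.2 ∈ q.1) = b) ∧
        (decide (p.1 ∈ q.2) = !a ∧ decide (p.2 ∈ q.2) = !b))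
  refine Eq.trans ?_ (h.trans ?_)
  · rfl
  · refine sum_congr rfl fun p _ => ?_
    rw [← card_product]
    congr 1
    ext q
    simp only [bipartiteBelow, mem_filter, mem_product, mem_pat]
    tauto

theorem step2_of_si3 {n s : ℕ} (h : SI3 n s) : Step2 n s := by
  intro α _ _ hα F G hF hG hlt
  have key : ∀ a b : Bool, n * (n - 1) * ((n - 2).choose (s - 1)) ^ 2 <
      ∑ A ∈ F, ∑ B ∈ G, ((univ : Finset α).offDiag.filter fun p =>
        (decide (p.1 ∈ A) = a ∧ decide (p.2 ∈ A) = b) ∧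
          (decide (p.1 ∈ B) = !a ∧ decide (p.2 ∈ B) = !b)).card →
      ∃ x y : α, x ≠ y ∧ ∃ a b : Bool,
        ((n - 2).choose (s - 1)) ^ 2 < (pat F x y a b).card * (pat G x y (!a) (!b)).card := by
    intro a b hab
    rw [sum_eq] at hab
    by_contra hcon
    push Not at hcon
    have h1 : ∑ p ∈ (univ : Finset α).offDiag,
        (pat F p.1 p.2 a b).card * (pat G p.1 p.2 (!a) (!b)).card ≤
        ∑ _p ∈ (univ : Finset α).offDiag, ((n - 2).choose (s - 1)) ^ 2 :=
      sum_le_sum fun p hp => hcon p.1 p.2 (mem_offDiag.1 hp).2.2 a b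
    rw [sum_const, offDiag_card, card_univ, hα, smul_eq_mul] at h1
    have h2 : n * n - n = n * (n - 1) := by
      rw [Nat.mul_sub, mul_one]
    rw [h2] at h1
    omega
  rcases h α hα F G hF hG hlt with h1 | h1 | h1
  · refine key true false (lt_of_lt_of_le h1 (le_of_eq ?_))
    refine sum_congr rfl fun A _ => sum_congr rfl fun B _ => ?_
    rw [← card_product]
    congr 1
    ext p
    simp only [mem_product, mem_sdiff, mem_filter, mem_offDiag, mem_univ, true_and, decide_eq_true_eq,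
      decide_eq_false_iff_not, Bool.not_true, Bool.not_false]
    constructor
    · rintro ⟨⟨h2, h3⟩, h4, h5⟩
      exact ⟨fun h6 => h3 (h6 ▸ h4), ⟨h2, h5⟩, h3, h4⟩
    · rintro ⟨-, ⟨h2, h3⟩, h4, h5⟩
      exact ⟨⟨h2, h4⟩, h5, h3⟩
  · refine key false false (lt_of_lt_of_le h1 (le_of_eq ?_))
    refine sum_congr rfl fun A _ => sum_congr rfl fun B _ => ?_
    have h2 : (B \ A).card * ((B \ A).card - 1) = ((B \ A).offDiag).card := by
      rw [offDiag_card, Nat.mul_sub, mul_one]
    rw [h2]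
    congr 1
    ext p
    simp only [mem_sdiff, mem_filter, mem_offDiag, mem_univ, true_and, decide_eq_true_eq,
      decide_eq_false_iff_not, Bool.not_false]
    tauto
  · refine key true true (lt_of_lt_of_le h1 (le_of_eq ?_))
    refine sum_congr rfl fun A _ => sum_congr rfl fun B _ => ?_
    have h2 : (A \ B).card * ((A \ B).card - 1) = ((A \ B).offDiag).card := by
      rw [offDiag_card, Nat.mul_sub, mul_one]
    rw [h2]
    congr 1
    ext p
    simp only [mem_sdiff, mem_filter, mem_offDiag, mem_univ, true_and, decide_eq_true_eq,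
      decide_eq_false_iff_not, Bool.not_true]
    tauto

/-- (STEP-2) for all `(k + 2 s, s)`, `s ≥ 1`, implies the bound for antichains of diameter at most `2 s`
in `2^(k + 2 s)`. -/
theorem even_of_step2 (k : ℕ) (hk : 1 ≤ k) (h : ∀ s : ℕ, 1 ≤ s → Step2 (k + 2 * s) s) (s : ℕ)
    {F : Finset (Finset (Fin (k + 2 * s)))}
    (hF : IsAntichain (· ⊆ ·) (F : Set (Finset (Fin (k + 2 * s)))))
    (hd : ∀ A ∈ F, ∀ B ∈ F, (symmDiff A B).card ≤ 2 * s) : F.card ≤ (k + 2 * s).choose s := by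
  have h1 := product_bound k hk h s (Fin (k + 2 * s)) (Fintype.card_fin _) F F hF hF hd
  rw [← sq] at h1
  exact le_of_sq_le_sq' h1
where
  le_of_sq_le_sq' {a b : ℕ} (h : a ^ 2 ≤ b ^ 2) : a ≤ b := by
    by_contra hcon
    push Not at hcon
    have := Nat.pow_lt_pow_left hcon (n := 2) (by norm_num)
    omega

/-- (STEP-2) for `n ≥ n0` implies Q1 of MP_f155e9_co for `n + k` even and `k ≥ n0`. -/
theorem q1_even_of_step2 (n0 : ℕ) (h : ∀ n s : ℕ, n0 ≤ n → 1 ≤ s → 2 * s < n → Step2 n s) {n k : ℕ}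
    (h1 : 1 ≤ k) (hk0 : n0 ≤ k) (hk : k ≤ n) (he : Even (n + k)) {F : Finset (Finset (Fin n))}
    (hF : IsAntichain (· ⊆ ·) (F : Set (Finset (Fin n))))
    (hd : ∀ A ∈ F, ∀ B ∈ F, (symmDiff A B).card ≤ n - k) : F.card ≤ n.choose ((n + k + 1) / 2) := by
  obtain ⟨c, hc⟩ := he
  obtain ⟨s, rfl⟩ : ∃ s, n = k + 2 * s := ⟨n - c, by omega⟩
  have h3 : (k + 2 * s + k + 1) / 2 = k + s := by omega
  rw [h3, ← Nat.choose_symm (by omega : k + s ≤ k + 2 * s)]
  have h4 : k + 2 * s - (k + s) = s := by omega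
  rw [h4]
  exact even_of_step2 k h1 (fun s' hs' => h _ _ (by omega) hs' (by omega)) s hF fun A hA B hB =>
    (hd A hA B hB).trans (by omega)

/-- (SI3) for `n ≥ n0` implies Q1 of MP_f155e9_co for `n + k` even and `k ≥ n0`. -/
theorem q1_even_of_si3 (n0 : ℕ) (h : ∀ n s : ℕ, n0 ≤ n → 1 ≤ s → 2 * s < n → SI3 n s) {n k : ℕ}
    (h1 : 1 ≤ k) (hk0 : n0 ≤ k) (hk : k ≤ n) (he : Even (n + k)) {F : Finset (Finset (Fin n))}
    (hF : IsAntichain (· ⊆ ·) (F : Set (Finset (Fin n))))
    (hd : ∀ A ∈ F, ∀ B ∈ F, (symmDiff A B).card ≤ n - k) : F.card ≤ n.choose ((n + k + 1) / 2) :=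
  q1_even_of_step2 n0 (fun n s h0 hs hn => step2_of_si3 (h n s h0 hs hn)) h1 hk0 hk he hF hd

end Pool.Agent.MidF.S2
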