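import Pool.Agent.MidF.Defs

/-! # The middle level statement: distances to two families -/

set_option autoImplicit false

namespace Pool.Agent.MidF

open Finset

variable {α : Type*} [DecidableEq α]

theorem dR_le {R : Finset α} {F : Finset (Finset α)} {A : Finset α} (hA : A ∈ F) (T : Finset α) :
    dR R F T ≤ (symmDiff T A ∩ R).card :=
  Nat.sInf_le ⟨A, hA, rfl⟩

theorem exists_dR (R : Finset α) {F : Finset (Finset α)} (hF : F.Nonempty) (T : Finset α) :
    ∃ A ∈ F, dR R F T = (symmDiff T A ∩ R).card := by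
  obtain ⟨A, hA⟩ := hF
  obtain ⟨B, hB, h⟩ := Nat.sInf_mem (s := (fun A => (symmDiff T A ∩ R).card) '' (F : Set (Finset α)))
    ⟨_, A, hA, rfl⟩
  exact ⟨B, hB, h.symm⟩

theorem card_symmDiff_compl {m : ℕ} (T B : Finset (Fin m)) :
    (symmDiff Tᶜ B).card + (symmDiff T B).card = m := by
  have h : symmDiff Tᶜ B = (symmDiff T B)ᶜ := by
    ext x
    simp only [mem_symmDiff, mem_compl]
    tauto
  rw [h, card_compl, Fintype.card_fin]
  have := card_le_univ (symmDiff T B)
  rw [Fintype.card_fin] at this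
  omega

theorem pointwise {m D : ℕ} {F G : Finset (Finset (Fin m))} (hF : F.Nonempty) (hG : G.Nonempty)
    (h : ∀ A ∈ F, ∀ B ∈ G, (symmDiff A B).card ≤ D) (T : Finset (Fin m)) :
    m ≤ dR univ F T + dR univ G Tᶜ + D := by
  obtain ⟨A, hA, h1⟩ := exists_dR univ hF T
  obtain ⟨B, hB, h2⟩ := exists_dR univ hG Tᶜ
  rw [h1, h2, inter_univ, inter_univ]
  have h3 := card_symmDiff_compl T B
  have h4 : (symmDiff T B).card ≤ (symmDiff T A).card + (symmDiff A B).card := by
    refine (card_le_card ?_).trans (card_union_le _ _)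
    intro x
    simp only [mem_symmDiff, mem_union]
    tauto
  have h5 := h A hA B hB
  omega

theorem avgD_compl {m : ℕ} (hm : Even m) (G : Finset (Finset (Fin m))) :
    avgD univ (m / 2) G = avg (powersetCard (m / 2) univ) fun T => (dR univ G Tᶜ : ℝ) := by
  unfold avgD avg
  congr 1
  refine Finset.sum_nbij' (fun T => Tᶜ) (fun T => Tᶜ) ?_ ?_ ?_ ?_ ?_
  · intro T hT
    rw [mem_powersetCard] at hT ⊢
    refine ⟨subset_univ _, ?_⟩
    rw [card_compl, Fintype.card_fin, hT.2]
    obtain ⟨c, rfl⟩ := hm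
    omega
  · intro T hT
    rw [mem_powersetCard] at hT ⊢
    refine ⟨subset_univ _, ?_⟩
    rw [card_compl, Fintype.card_fin, hT.2]
    obtain ⟨c, rfl⟩ := hm
    omega
  · intro T _
    exact compl_compl T
  · intro T _
    exact compl_compl T
  · intro T _
    simp only [compl_compl]

theorem cross {m D : ℕ} (hm : Even m) {F G : Finset (Finset (Fin m))} (hF : F.Nonempty)
    (hG : G.Nonempty) (h : ∀ A ∈ F, ∀ B ∈ G, (symmDiff A B).card ≤ D) :
    (m : ℝ) - D ≤ avgD univ (m / 2) F + avgD univ (m / 2) G := by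
  rw [avgD_compl hm G]
  unfold avgD avg
  have hpos : (0 : ℝ) < ((powersetCard (m / 2) (univ : Finset (Fin m))).card : ℝ) := by
    rw [card_powersetCard, card_univ, Fintype.card_fin]
    exact_mod_cast Nat.choose_pos (Nat.div_le_self m 2)
  rw [← add_div, ← Finset.sum_add_distrib, le_div_iff₀ hpos]
  have h1 : ∀ T ∈ powersetCard (m / 2) (univ : Finset (Fin m)),
      ((m : ℝ) - D) ≤ (dR univ F T : ℝ) + (dR univ G Tᶜ : ℝ) := by
    intro T _
    have h2 := pointwise hF hG h T
    have h3 : (m : ℝ) ≤ (dR univ F T : ℝ) + (dR univ G Tᶜ : ℝ) + D := by exact_mod_cast h2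
    linarith
  calc ((m : ℝ) - D) * ((powersetCard (m / 2) (univ : Finset (Fin m))).card : ℝ) =
      ∑ _T ∈ powersetCard (m / 2) (univ : Finset (Fin m)), ((m : ℝ) - D) := by
        rw [Finset.sum_const, nsmul_eq_mul, mul_comm]
    _ ≤ _ := Finset.sum_le_sum h1

end Pool.Agent.MidF
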