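import Mathlib

/-!
# The middle level statement (MP_f155e9_co, n + k even): definitions

`dR R F T` is the distance of the set `T` to the family `F`, measured inside `R`.  `MidBound m` is the statement (MID):
for an antichain `F` of subsets of an `m`-set the average distance of the sets of the middle level to `F` is at most
`m / 2 - h_m (|F|)`, where `h_m` is piecewise linear with `h_m (C(m,a)) = a`.
-/

set_option autoImplicit false

namespace Pool.Agent.MidF

open Finset

variable {α : Type*} [DecidableEq α]

/-- The distance of the set `T` to the family `F`, measured inside `R` (zero if `F` is empty). -/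
noncomputable def dR (R : Finset α) (F : Finset (Finset α)) (T : Finset α) : ℕ :=
  sInf ((fun A => (symmDiff T A ∩ R).card) '' (F : Set (Finset α)))

/-- The average of `f` over the finite set `s`. -/
noncomputable def avg {β : Type*} (s : Finset β) (f : β → ℝ) : ℝ := (∑ x ∈ s, f x) / s.card

/-- The average distance of the subsets of `R` with `q` elements to `F`. -/
noncomputable def avgD (R : Finset α) (q : ℕ) (F : Finset (Finset α)) : ℝ :=
  avg (powersetCard q R) fun T => (dR R F T : ℝ)

/-- The bound `m / 2 - h_m (N)` for `C(m,a) ≤ N ≤ C(m,a+1)`. -/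
noncomputable def kap (m a N : ℕ) : ℝ :=
  (m : ℝ) / 2 - a - ((N : ℝ) - m.choose a) / ((m.choose (a + 1) : ℝ) - m.choose a)

/-- The middle level statement (MID) for subsets of an `m`-set. -/
def MidBound (m : ℕ) : Prop :=
  ∀ F : Finset (Finset (Fin m)), IsAntichain (· ⊆ ·) (F : Set (Finset (Fin m))) →
    ∀ a, 2 * a + 2 ≤ m → m.choose a ≤ F.card → F.card ≤ m.choose (a + 1) →
      avgD univ (m / 2) F ≤ kap m a F.card

/-- The cost of the greedy (lexicographic) matching in random order: the coordinates in `R` (`r = |R|`) are read in
random order, `T` is a uniformly random subset of `R` with `q` elements. -/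
noncomputable def V : ℕ → Finset α → ℕ → Finset (Finset α) → ℝ
  | 0, _, _, _ => 0
  | r + 1, R, q, F => avg R fun x =>
      (q : ℝ) / (r + 1) * (if (F.filter (x ∈ ·)).Nonempty then V r (R.erase x) (q - 1) (F.filter (x ∈ ·))
        else 1 + V r (R.erase x) (q - 1) (F.filter (x ∉ ·))) +
      (1 - (q : ℝ) / (r + 1)) * (if (F.filter (x ∉ ·)).Nonempty then V r (R.erase x) q (F.filter (x ∉ ·))
        else 1 + V r (R.erase x) q (F.filter (x ∈ ·)))

/-- The greedy claim (helper75) for subsets of an `m`-set. -/
def GreedyBound (m : ℕ) : Prop :=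
  ∀ F : Finset (Finset (Fin m)), IsAntichain (· ⊆ ·) (F : Set (Finset (Fin m))) →
    ∀ a, 2 * a + 2 ≤ m → m.choose a ≤ F.card → F.card ≤ m.choose (a + 1) →
      V m univ (m / 2) F ≤ kap m a F.card

end Pool.Agent.MidF
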