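import Pool.Agent.MidF.Cross

/-! # (MID) implies the bound for antichains of diameter at most `2 s` -/

set_option autoImplicit false

namespace Pool.Agent.MidF

open Finset

theorem choose_lt_choose {m a : ℕ} (h : 2 * a + 2 ≤ m) : m.choose a < m.choose (a + 1) := by
  have h1 := Nat.choose_succ_right_eq m a
  have h2 : 0 < m.choose a := Nat.choose_pos (by omega)
  by_contra hlt
  push Not at hlt
  have h3 : m.choose (a + 1) * (a + 1) ≤ m.choose a * (a + 1) := Nat.mul_le_mul_right _ hlt
  rw [h1] at h3
  have h4 := Nat.le_of_mul_le_mul_left h3 h2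
  omega

theorem choose_mono {m a b : ℕ} (hab : a ≤ b) (hb : 2 * b ≤ m) : m.choose a ≤ m.choose b := by
  induction b, hab using Nat.le_induction with
  | base => exact le_rfl
  | succ b hab ih => exact (ih (by omega)).trans (choose_lt_choose (by omega)).le

/-- Every number between `C(m,s)` and `C(m,m/2)` is in one of the intervals. -/
theorem exists_interval {m s N : ℕ} (h1 : m.choose s < N) (h2 : N ≤ m.choose (m / 2))
    (hs : 2 * s < m) (hm : Even m) :
    ∃ a, s ≤ a ∧ 2 * a + 2 ≤ m ∧ m.choose a < N ∧ N ≤ m.choose (a + 1) := by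
  classical
  have hlt : s < m / 2 := by
    obtain ⟨d, rfl⟩ := hm
    omega
  have hex : ∃ b, s < b ∧ N ≤ m.choose b := ⟨m / 2, hlt, h2⟩
  have h3 := Nat.find_spec hex
  have h4 : Nat.find hex ≤ m / 2 := Nat.find_min' hex ⟨hlt, h2⟩
  obtain ⟨c, hc⟩ : ∃ c, Nat.find hex = c + 1 := ⟨Nat.find hex - 1, by omega⟩
  refine ⟨c, by omega, by obtain ⟨d, rfl⟩ := hm; omega, ?_, hc ▸ h3.2⟩
  by_cases hcs : c = s
  · rw [hcs]
    exact h1
  · have h5 := Nat.find_min hex (m := c) (by omega)
    push Not at h5
    exact h5 (by omega)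

theorem even_even {m : ℕ} (hm : Even m) (h : MidBound m) {s : ℕ} (hs : 2 * s ≤ m)
    {F : Finset (Finset (Fin m))} (hF : IsAntichain (· ⊆ ·) (F : Set (Finset (Fin m))))
    (hd : ∀ A ∈ F, ∀ B ∈ F, (symmDiff A B).card ≤ 2 * s) : F.card ≤ m.choose s := by
  have hsp : F.card ≤ m.choose (m / 2) := by
    have := hF.sperner
    rwa [Fintype.card_fin] at this
  rcases Nat.lt_or_ge (2 * s) m with hs' | hs'
  · by_contra hcon
    push Not at hcon
    obtain ⟨a, h1, h2, h3, h4⟩ := exists_interval hcon hsp hs' hm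
    have h5 := h F hF a h2 h3.le h4
    have hne : F.Nonempty := by
      rw [← card_pos]
      omega
    have h6 := cross hm hne hne hd
    unfold kap at h5
    have h7 : (0 : ℝ) < ((F.card : ℝ) - m.choose a) / ((m.choose (a + 1) : ℝ) - m.choose a) := by
      refine div_pos ?_ ?_
      · have : (m.choose a : ℝ) < F.card := by exact_mod_cast h3
        linarith
      · have : (m.choose a : ℝ) < m.choose (a + 1) := by exact_mod_cast choose_lt_choose h2
        linarith
    have h8 : (s : ℝ) ≤ a := by exact_mod_cast h1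
    push_cast at h6
    linarith
  · have : m / 2 = s := by omega
    rwa [this] at hsp

end Pool.Agent.MidF
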