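import Mathlib

/-!
# The adaptive symmetric chain decomposition game (helper17) implies Q1 of MP_f155e9_co, both parities

State: a list `U` of distinct elements, a finite set `R` of unread elements (disjoint from `U`, `r = |R|`), and a set
`P` of constraints `(A, b)`: at most `b` matches are allowed on `A`.  The sets `A` are points of the state: `A ⊆ U ∪ R`
and `A ∩ U` is a prefix of `U`.  A move chooses `x ∈ R` and a side.

* right: if the last element `u` of `U` is not in `A` and `x ∈ A`, then `u` and `x` are matched (the new list is `U`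
  without `u`, the new point is `A` without `x`); otherwise the new list is `U ++ [x]`;
* left: if the first element `u` of `U` is in `A` and `x ∉ A`, then `u` and `x` are matched (the new list is `U`
  without `u`, the new point is `A` without `u`); otherwise the new list is `x :: U`.
-/

set_option autoImplicit false

namespace Pool.Agent.MidF.Game

open Finset

variable {α : Type*} [DecidableEq α]

/-- There is a strategy in the game (with `r` unread elements) that satisfies all constraints in `P`. -/
def Win : ℕ → List α → Finset α → Set (Finset α × ℤ) → Prop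
  | 0, _, _, P => ∀ p ∈ P, 0 ≤ p.2
  | r + 1, U, R, P => ∃ x ∈ R,
      (Win r (U ++ [x]) (R.erase x) {p | p ∈ P ∧ ¬ (x ∈ p.1 ∧ ∃ u ∈ U.getLast?, u ∉ p.1)} ∧
        ∀ u ∈ U.getLast?, Win r U.dropLast (R.erase x)
          {q | ∃ p ∈ P, x ∈ p.1 ∧ u ∉ p.1 ∧ q = (p.1.erase x, p.2 - 1)}) ∨
      (Win r (x :: U) (R.erase x) {p | p ∈ P ∧ ¬ (x ∉ p.1 ∧ ∃ u ∈ U.head?, u ∈ p.1)} ∧
        ∀ u ∈ U.head?, Win r U.tail (R.erase x)
          {q | ∃ p ∈ P, x ∉ p.1 ∧ u ∈ p.1 ∧ q = (p.1.erase u, p.2 - 1)})

/-- `A` is a point of the state `(U, R)`. -/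
def IsPt (U : List α) (R : Finset α) (A : Finset α) : Prop :=
  A ⊆ U.toFinset ∪ R ∧ U.Pairwise fun a b => b ∈ A → a ∈ A

/-- `C(r, z)` for an integer `z`. -/
def ch (r : ℕ) (z : ℤ) : ℕ := if 0 ≤ z then r.choose z.toNat else 0

/-- The number of chains with at most `m` matches (for `2 m ≤ j + r`). -/
def cnt (j r : ℕ) (m : ℤ) : ℕ := ∑ i ∈ range (j + 1), ch r (m - i)

theorem ch_succ (r : ℕ) (z : ℤ) : ch (r + 1) z = ch r z + ch r (z - 1) := by
  unfold ch
  rcases lt_trichotomy z 0 with h | h | h
  · rw [if_neg (by omega), if_neg (by omega), if_neg (by omega)]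
  · subst h
    simp
  · obtain ⟨k, rfl⟩ : ∃ k : ℕ, z = (k : ℤ) + 1 := ⟨(z - 1).toNat, by omega⟩
    rw [if_pos (by omega), if_pos (by omega), if_pos (by omega)]
    have h1 : ((k : ℤ) + 1).toNat = k + 1 := by omega
    have h2 : ((k : ℤ) + 1 - 1).toNat = k := by omega
    rw [h1, h2, Nat.choose_succ_succ, add_comm]

theorem cnt_zero_succ (r : ℕ) (m : ℤ) : cnt 0 (r + 1) m = cnt 1 r m := by
  unfold cnt
  rw [sum_range_one, sum_range_succ, sum_range_one, ch_succ]
  simp

theorem cnt_succ_succ (j r : ℕ) (m : ℤ) : cnt (j + 1) (r + 1) m = cnt (j + 2) r m + cnt j r (m - 1) := by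
  unfold cnt
  have h1 : ∑ i ∈ range (j + 1 + 1), ch (r + 1) (m - (i : ℤ)) =
      ∑ i ∈ range (j + 1 + 1), ch r (m - (i : ℤ)) + ∑ i ∈ range (j + 1 + 1), ch r (m - 1 - (i : ℤ)) := by
    rw [← sum_add_distrib]
    refine sum_congr rfl fun i _ => ?_
    rw [ch_succ]
    congr 2
    ring
  rw [h1, sum_range_succ (fun i : ℕ => ch r (m - (i : ℤ))) (j + 2),
    sum_range_succ (fun i : ℕ => ch r (m - 1 - (i : ℤ))) (j + 1)]
  have h2 : m - 1 - ((j + 1 : ℕ) : ℤ) = m - ((j + 2 : ℕ) : ℤ) := by push_cast; ring
  rw [h2]
  ring

theorem cnt_zero_right {j : ℕ} {m : ℤ} (h0 : 0 ≤ m) (hm : m ≤ j) : cnt j 0 m = 1 := by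
  unfold cnt
  obtain ⟨k, rfl⟩ : ∃ k : ℕ, m = k := ⟨m.toNat, by omega⟩
  rw [sum_eq_single k]
  · simp [ch]
  · intro b _ hb
    unfold ch
    split_ifs with h
    · have : ((k : ℤ) - (b : ℤ)).toNat ≠ 0 := by omega
      obtain ⟨c, hc⟩ := Nat.exists_eq_succ_of_ne_zero this
      rw [hc]
      rfl
    · rfl
  · intro h
    exfalso
    apply h
    rw [mem_range]
    omega

theorem cnt_zero_left (n : ℕ) (s : ℕ) : cnt 0 n s = n.choose s := by
  simp [cnt, ch]

/-- Two points of a state without unread elements are comparable. -/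
theorem pts_comparable (U : List α) {A B : Finset α} (hA : U.Pairwise fun a b => b ∈ A → a ∈ A)
    (hB : U.Pairwise fun a b => b ∈ B → a ∈ B) : (∀ z ∈ U, z ∈ A → z ∈ B) ∨ ∀ z ∈ U, z ∈ B → z ∈ A := by
  induction U with
  | nil => simp
  | cons u U ih =>
    rw [List.pairwise_cons] at hA hB
    by_cases hu : u ∈ A
    · by_cases hv : u ∈ B
      · rcases ih hA.2 hB.2 with h | h
        · left
          intro z hz
          rcases List.mem_cons.1 hz with rfl | hz
          · exact fun _ => hv
          · exact h z hz
        · right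
          intro z hz
          rcases List.mem_cons.1 hz with rfl | hz
          · exact fun _ => hu
          · exact h z hz
      · right
        intro z hz hzB
        rcases List.mem_cons.1 hz with rfl | hz
        · exact hu
        · exact absurd (hB.1 z hz hzB) hv
    · left
      intro z hz hzA
      rcases List.mem_cons.1 hz with rfl | hz
      · exact absurd hzA hu
      · exact absurd (hA.1 z hz hzA) hu

theorem isPt_right_e {U : List α} {R : Finset α} {A : Finset α} {x : α} (hx : x ∈ R) (h : IsPt U R A)
    (hm : ¬ (x ∈ A ∧ ∃ u ∈ U.getLast?, u ∉ A)) : IsPt (U ++ [x]) (R.erase x) A := by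
  obtain ⟨h1, h2⟩ := h
  refine ⟨?_, ?_⟩
  · intro z hz
    have := h1 hz
    simp only [mem_union, List.mem_toFinset, List.mem_append, List.mem_singleton, mem_erase] at this ⊢
    tauto
  · rw [List.pairwise_append]
    refine ⟨h2, List.pairwise_singleton _ _, ?_⟩
    intro a ha b hb hbA
    rw [List.mem_singleton] at hb
    subst hb
    rcases List.eq_nil_or_concat' U with rfl | ⟨L, u, rfl⟩
    · simp at ha
    · have hu : u ∈ A := by
        by_contra hu
        exact hm ⟨hbA, u, by simp, hu⟩
      rw [List.pairwise_append] at h2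
      rcases List.mem_append.1 ha with ha | ha
      · exact h2.2.2 a ha u (by simp) hu
      · rw [List.mem_singleton] at ha
        rw [ha]
        exact hu

theorem isPt_right_m {L : List α} {u : α} {R : Finset α} {A : Finset α} {x : α} (hx : x ∈ R)
    (hd : ∀ z ∈ L ++ [u], z ∉ R) (h : IsPt (L ++ [u]) R A) (hu : u ∉ A) :
    IsPt L (R.erase x) (A.erase x) := by
  obtain ⟨h1, h2⟩ := h
  refine ⟨?_, ?_⟩
  · intro z hz
    rw [mem_erase] at hz
    have := h1 hz.2
    simp only [mem_union, List.mem_toFinset, List.mem_append, List.mem_singleton, mem_erase] at this ⊢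
    rcases this with (h | h) | h
    · exact Or.inl h
    · subst h
      exact absurd hz.2 hu
    · exact Or.inr ⟨hz.1, h⟩
  · rw [List.pairwise_append] at h2
    refine List.Pairwise.imp_of_mem ?_ h2.1
    intro a b ha hb hab hbA
    rw [mem_erase] at hbA ⊢
    refine ⟨?_, hab hbA.2⟩
    rintro rfl
    exact hd a (List.mem_append_left _ ha) hx

theorem isPt_left_e {U : List α} {R : Finset α} {A : Finset α} {x : α} (h : IsPt U R A)
    (hm : ¬ (x ∉ A ∧ ∃ u ∈ U.head?, u ∈ A)) : IsPt (x :: U) (R.erase x) A := by
  obtain ⟨h1, h2⟩ := h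
  refine ⟨?_, ?_⟩
  · intro z hz
    have := h1 hz
    simp only [mem_union, List.mem_toFinset, List.mem_cons, mem_erase] at this ⊢
    tauto
  · rw [List.pairwise_cons]
    refine ⟨?_, h2⟩
    intro b hb hbA
    rcases U with _ | ⟨u, U⟩
    · simp at hb
    · have hu : u ∈ A := by
        rcases List.mem_cons.1 hb with rfl | hb
        · exact hbA
        · exact (List.pairwise_cons.1 h2).1 b hb hbA
      by_contra hxA
      exact hm ⟨hxA, u, by simp, hu⟩

theorem isPt_left_m {L : List α} {u : α} {R : Finset α} {A : Finset α} {x : α}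
    (hn : u ∉ L) (h : IsPt (u :: L) R A) (hxA : x ∉ A) : IsPt L (R.erase x) (A.erase u) := by
  obtain ⟨h1, h2⟩ := h
  refine ⟨?_, ?_⟩
  · intro z hz
    rw [mem_erase] at hz
    have := h1 hz.2
    simp only [mem_union, List.mem_toFinset, List.mem_cons, mem_erase] at this ⊢
    rcases this with (h | h) | h
    · exact absurd h hz.1
    · exact Or.inl h
    · refine Or.inr ⟨?_, h⟩
      rintro rfl
      exact hxA hz.2
  · rw [List.pairwise_cons] at h2
    refine List.Pairwise.imp_of_mem ?_ h2.2
    intro a b ha hb hab hbA
    rw [mem_erase] at hbA ⊢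
    refine ⟨?_, hab hbA.2⟩
    rintro rfl
    exact hn ha

theorem card_split (F : Finset (Finset α)) (p : Finset α → Prop) [DecidablePred p] (x : α)
    (h : ∀ A, p A → x ∈ A) :
    F.card = (F.filter fun A => ¬ p A).card + ((F.filter p).image fun A => A.erase x).card := by
  rw [card_image_of_injOn, add_comm, card_filter_add_card_filter_not]
  intro A hA B hB hAB
  rw [mem_coe, mem_filter] at hA hB
  have h1 := h A hA.2
  have h2 := h B hB.2
  simp only at hAB
  rw [← insert_erase h1, ← insert_erase h2, hAB]

theorem antichain_image {F : Finset (Finset α)} (hF : IsAntichain (· ⊆ ·) (F : Set (Finset α)))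
    (p : Finset α → Prop) [DecidablePred p] (x : α) (h : ∀ A, p A → x ∈ A) :
    IsAntichain (· ⊆ ·) (((F.filter p).image fun A => A.erase x : Finset (Finset α)) : Set (Finset α)) := by
  intro A' hA' B' hB' hne hsub
  rw [mem_coe, mem_image] at hA' hB'
  obtain ⟨A, hA, rfl⟩ := hA'
  obtain ⟨B, hB, rfl⟩ := hB'
  rw [mem_filter] at hA hB
  refine hF hA.1 hB.1 (fun hAB => hne (by rw [hAB])) ?_
  intro z hz
  by_cases hzx : z = x
  · rw [hzx]
    exact h B hB.2
  · exact (mem_erase.1 (hsub (mem_erase.2 ⟨hzx, hz⟩))).2

/-- An antichain of points of a state on which a strategy has at most `m` matches has at most `cnt |U| r m` members. -/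
theorem card_le_cnt (r : ℕ) : ∀ (U : List α) (R : Finset α) (F : Finset (Finset α)) (m : ℤ)
    (P : Set (Finset α × ℤ)), R.card = r → U.Nodup → (∀ z ∈ U, z ∉ R) → (∀ A ∈ F, IsPt U R A) →
    IsAntichain (· ⊆ ·) (F : Set (Finset α)) → 2 * m ≤ U.length + r → (∀ A ∈ F, (A, m) ∈ P) →
    Win r U R P → F.card ≤ cnt U.length r m := by
  classical
  induction r with
  | zero =>
    intro U R F m P hR hU hd hpt hF hm hP hW
    rw [card_eq_zero] at hR
    subst hR
    rcases F.eq_empty_or_nonempty with rfl | ⟨A, hA⟩
    · simp
    · have h0 : 0 ≤ m := hW _ (hP A hA)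
      rw [cnt_zero_right h0 (by omega), card_le_one]
      intro B hB C hC
      by_contra hne
      have hB1 := hpt B hB
      have hC1 := hpt C hC
      have hBU : ∀ z ∈ B, z ∈ U := fun z hz => by
        have := hB1.1 hz
        simpa using this
      have hCU : ∀ z ∈ C, z ∈ U := fun z hz => by
        have := hC1.1 hz
        simpa using this
      rcases pts_comparable U hB1.2 hC1.2 with h | h
      · exact hF hB hC hne fun z hz => h z (hBU z hz) hz
      · exact hF hC hB (Ne.symm hne) fun z hz => h z (hCU z hz) hz
  | succ r ih =>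
    intro U R F m P hR hU hd hpt hF hm hP hW
    obtain ⟨x, hx, hW⟩ := hW
    have hR' : (R.erase x).card = r := by
      rw [card_erase_of_mem hx, hR]
      rfl
    have hxU : x ∉ U := fun h => hd x h hx
    rcases hW with ⟨hE, hM⟩ | ⟨hE, hM⟩
    · have h1 : (F.filter fun A => ¬ (x ∈ A ∧ ∃ u ∈ U.getLast?, u ∉ A)).card ≤ cnt (U.length + 1) r m := by
        have := ih (U ++ [x]) (R.erase x) (F.filter fun A => ¬ (x ∈ A ∧ ∃ u ∈ U.getLast?, u ∉ A)) m _ hR'
          (by
            rw [List.nodup_append]
            refine ⟨hU, List.nodup_singleton _, ?_⟩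
            intro a ha b hb
            rw [List.mem_singleton] at hb
            subst hb
            rintro rfl
            exact hxU ha)
          (by
            intro z hz
            rw [mem_erase]
            rintro ⟨hzx, hzR⟩
            rcases List.mem_append.1 hz with hz | hz
            · exact hd z hz hzR
            · exact hzx (List.mem_singleton.1 hz))
          (by
            intro A hA
            rw [mem_filter] at hA
            exact isPt_right_e hx (hpt A hA.1) hA.2)
          (hF.subset (by
            intro A hA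
            rw [mem_coe, mem_filter] at hA
            exact hA.1))
          (by
            rw [List.length_append, List.length_singleton]
            push_cast at hm ⊢
            linarith)
          (by
            intro A hA
            rw [mem_filter] at hA
            exact ⟨hP A hA.1, hA.2⟩)
          hE
        rwa [List.length_append, List.length_singleton] at this
      rcases List.eq_nil_or_concat' U with rfl | ⟨L, u, rfl⟩
      · rw [List.length_nil, cnt_zero_succ]
        refine le_trans (card_le_card ?_) h1
        intro A hA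
        rw [mem_filter]
        exact ⟨hA, by simp⟩
      · have hgl : (L ++ [u]).getLast? = some u := by simp
        have hdl : (L ++ [u]).dropLast = L := by simp
        have hlen : (L ++ [u]).length = L.length + 1 := by simp
        rw [hgl] at h1 hM
        rw [hlen] at h1 hm ⊢
        have hM' := hM u rfl
        rw [hdl] at hM'
        rw [cnt_succ_succ, card_split F (fun A => x ∈ A ∧ ∃ v ∈ some u, v ∉ A) x (fun A h => h.1)]
        refine Nat.add_le_add h1 ?_
        refine ih L (R.erase x) _ (m - 1) _ hR' (List.Nodup.of_append_left hU) ?_ ?_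
          (antichain_image hF _ x fun A h => h.1) ?_ ?_ hM'
        · intro z hz hz'
          exact hd z (List.mem_append_left _ hz) (mem_erase.1 hz').2
        · intro A' hA'
          rw [mem_image] at hA'
          obtain ⟨A, hA, rfl⟩ := hA'
          rw [mem_filter] at hA
          obtain ⟨v, hv, hvA⟩ := hA.2.2
          have hvu : u = v := by simpa using hv
          subst hvu
          exact isPt_right_m hx hd (hpt A hA.1) hvA
        · push_cast at hm ⊢
          linarith
        · intro A' hA'
          rw [mem_image] at hA'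
          obtain ⟨A, hA, rfl⟩ := hA'
          rw [mem_filter] at hA
          obtain ⟨v, hv, hvA⟩ := hA.2.2
          have hvu : u = v := by simpa using hv
          subst hvu
          exact ⟨(A, m), hP A hA.1, hA.2.1, hvA, rfl⟩
    · have h1 : (F.filter fun A => ¬ (x ∉ A ∧ ∃ u ∈ U.head?, u ∈ A)).card ≤ cnt (U.length + 1) r m := by
        have := ih (x :: U) (R.erase x) (F.filter fun A => ¬ (x ∉ A ∧ ∃ u ∈ U.head?, u ∈ A)) m _ hR'
          (List.nodup_cons.2 ⟨hxU, hU⟩)
          (by
            intro z hz
            rw [mem_erase]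
            rintro ⟨hzx, hzR⟩
            rcases List.mem_cons.1 hz with hz | hz
            · exact hzx hz
            · exact hd z hz hzR)
          (by
            intro A hA
            rw [mem_filter] at hA
            exact isPt_left_e (hpt A hA.1) hA.2)
          (hF.subset (by
            intro A hA
            rw [mem_coe, mem_filter] at hA
            exact hA.1))
          (by
            rw [List.length_cons]
            push_cast at hm ⊢
            linarith)
          (by
            intro A hA
            rw [mem_filter] at hA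
            exact ⟨hP A hA.1, hA.2⟩)
          hE
        rwa [List.length_cons] at this
      rcases U with _ | ⟨u, L⟩
      · rw [List.length_nil, cnt_zero_succ]
        refine le_trans (card_le_card ?_) h1
        intro A hA
        rw [mem_filter]
        exact ⟨hA, by simp⟩
      · have hM' := hM u rfl
        rw [List.tail_cons] at hM'
        rw [List.length_cons] at h1 hm ⊢
        rw [List.head?_cons] at h1
        rw [cnt_succ_succ, card_split F (fun A => x ∉ A ∧ ∃ v ∈ some u, v ∈ A) u (fun A h => by
          obtain ⟨v, hv, hvA⟩ := h.2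
          have hvu : u = v := by simpa using hv
          rw [hvu]
          exact hvA)]
        refine Nat.add_le_add h1 ?_
        rw [List.nodup_cons] at hU
        refine ih L (R.erase x) _ (m - 1) _ hR' hU.2 ?_ ?_
          (antichain_image hF _ u fun A h => by
            obtain ⟨v, hv, hvA⟩ := h.2
            have hvu : u = v := by simpa using hv
            rw [hvu]
            exact hvA) ?_ ?_ hM'
        · intro z hz hz'
          exact hd z (List.mem_cons_of_mem _ hz) (mem_erase.1 hz').2
        · intro A' hA'
          rw [mem_image] at hA'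
          obtain ⟨A, hA, rfl⟩ := hA'
          rw [mem_filter] at hA
          exact isPt_left_m hU.1 (hpt A hA.1) hA.2.1
        · push_cast at hm ⊢
          linarith
        · intro A' hA'
          rw [mem_image] at hA'
          obtain ⟨A, hA, rfl⟩ := hA'
          rw [mem_filter] at hA
          obtain ⟨v, hv, hvA⟩ := hA.2.2
          have hvu : u = v := by simpa using hv
          subst hvu
          exact ⟨(A, m), hP A hA.1, hA.2.1, hvA, rfl⟩

/-- Conjecture (G) of helper17: a family with all distances at most `2 s + 1` (`2 s < n`) is won with `s` matches. -/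
def GameConj (n s : ℕ) : Prop :=
  ∀ F : Finset (Finset (Fin n)), (∀ A ∈ F, ∀ B ∈ F, (symmDiff A B).card ≤ 2 * s + 1) →
    Win n [] univ {p | p.1 ∈ F ∧ p.2 = s}

/-- A winning strategy with at most `s` matches on the antichain `F` gives `|F| ≤ C(n,s)`. -/
theorem card_le_of_win {n s : ℕ} (hs : 2 * s ≤ n) {F : Finset (Finset (Fin n))}
    (hF : IsAntichain (· ⊆ ·) (F : Set (Finset (Fin n))))
    (hW : Win n [] univ {p : Finset (Fin n) × ℤ | p.1 ∈ F ∧ p.2 = s}) : F.card ≤ n.choose s := by
  have h := card_le_cnt n [] univ F s _ (by rw [card_univ, Fintype.card_fin]) List.nodup_nil (by simp)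
    (fun A _ => ⟨fun z _ => by simp, List.Pairwise.nil⟩) hF (by
      rw [List.length_nil]
      push_cast
      omega) (fun A hA => (⟨hA, rfl⟩ : A ∈ F ∧ (s : ℤ) = s)) hW
  rwa [List.length_nil, cnt_zero_left] at h

/-- (G) implies Q1 of MP_f155e9_co (S12353), both parities. -/
theorem q1_of_game (h : ∀ n s : ℕ, 2 * s < n → GameConj n s) :
    ∀ n k : ℕ, 1 ≤ k → k ≤ n →
      ∀ F : Finset (Finset (Fin n)),
        IsAntichain (· ⊆ ·) (F : Set (Finset (Fin n))) →
        (∀ A ∈ F, ∀ B ∈ F, (symmDiff A B).card ≤ n - k) →
        F.card ≤ n.choose ((n + k + 1) / 2) := by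
  intro n k h1 hk F hF hd
  have h2 : (n + k + 1) / 2 ≤ n := by omega
  have h3 : n - (n + k + 1) / 2 = (n - k) / 2 := by omega
  rw [← Nat.choose_symm h2, h3]
  refine card_le_of_win (by omega) hF (h n _ (by omega) F fun A hA B hB => ?_)
  have := hd A hA B hB
  omega

/-- The cross form (T x) of helper17 for the empty list and one family of constraints implies (G). -/
theorem gameConj_of_cross {n s : ℕ}
    (h : ∀ P Q : Set (Finset (Fin n) × ℤ),
      (∀ p ∈ P, ∀ q ∈ Q, ((symmDiff p.1 q.1).card : ℤ) ≤ p.2 + q.2 + 1) →
        Win n [] univ P ∨ Win n [] univ Q) : GameConj n s := by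
  intro F hF
  rcases h {p | p.1 ∈ F ∧ p.2 = s} {p | p.1 ∈ F ∧ p.2 = s} (by
    rintro ⟨A, a⟩ ⟨hA, rfl⟩ ⟨B, b⟩ ⟨hB, rfl⟩
    have := hF A hA B hB
    simp only
    omega) with h | h <;> exact h

end Pool.Agent.MidF.Game
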