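import Pool.Agent.MidF.Cross

/-! # The cost of the greedy matching bounds the average distance -/

set_option autoImplicit false

namespace Pool.Agent.MidF

open Finset

variable {α : Type*} [DecidableEq α]

/-- Conditioning on the coordinate `x`. -/
theorem avg_split {R : Finset α} {r q : ℕ} (hR : R.card = r + 1) {x : α} (hx : x ∈ R)
    (hq : q ≤ r + 1) (f : Finset α → ℝ) :
    avg (powersetCard q R) f =
      (q : ℝ) / (r + 1) * avg (powersetCard (q - 1) (R.erase x)) (fun T => f (insert x T)) +
      (1 - (q : ℝ) / (r + 1)) * avg (powersetCard q (R.erase x)) f := by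
  have hr : (R.erase x).card = r := by rw [card_erase_of_mem hx, hR, Nat.add_sub_cancel]
  have hx' : x ∉ R.erase x := notMem_erase x R
  have hr1 : (0 : ℝ) < (r : ℝ) + 1 := by positivity
  rcases Nat.eq_zero_or_pos q with h0 | h0
  · subst h0
    simp [avg]
  · obtain ⟨p, rfl⟩ : ∃ p, q = p + 1 := ⟨q - 1, by omega⟩
    have h1 : ∑ T ∈ powersetCard (p + 1) R, f T = ∑ T ∈ powersetCard (p + 1) (R.erase x), f T +
        ∑ T ∈ powersetCard p (R.erase x), f (insert x T) := by
      conv_lhs => rw [← insert_erase hx, powersetCard_succ_insert hx']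
      rw [sum_union, sum_image]
      · intro T hT T' hT' h
        have h2 : x ∉ T := fun h => hx' ((mem_powersetCard.1 hT).1 h)
        have h3 : x ∉ T' := fun h => hx' ((mem_powersetCard.1 hT').1 h)
        rw [← erase_insert h2, ← erase_insert h3]
        exact congrArg (fun s => s.erase x) h
      · rw [disjoint_left]
        intro T hT hT'
        obtain ⟨T'', _, rfl⟩ := mem_image.1 hT'
        exact hx' ((mem_powersetCard.1 hT).1 (mem_insert_self _ _))
    unfold avg
    rw [h1, card_powersetCard, card_powersetCard, card_powersetCard, hR, hr, Nat.add_sub_cancel]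
    have hc : (0 : ℝ) < ((r + 1).choose (p + 1) : ℝ) := by exact_mod_cast Nat.choose_pos hq
    have h2 : ((r + 1).choose (p + 1) : ℝ) * (p + 1) = (r + 1) * (r.choose p : ℝ) := by
      exact_mod_cast (Nat.add_one_mul_choose_eq r p).symm
    have h3 : ((r + 1).choose (p + 1) : ℝ) = (r.choose p : ℝ) + (r.choose (p + 1) : ℝ) := by
      exact_mod_cast Nat.choose_succ_succ' r p
    have hp : (0 : ℝ) < (r.choose p : ℝ) := by exact_mod_cast Nat.choose_pos (by omega)
    push_cast
    rcases Nat.eq_or_lt_of_le hq with h4 | h4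
    · have h5 : p = r := by omega
      subst h5
      simp only [Nat.choose_self, Nat.choose_succ_self, Nat.cast_one, Nat.cast_zero]
      rw [powersetCard_eq_empty.2 (by omega), sum_empty]
      field_simp
      ring
    · have hp1 : (0 : ℝ) < (r.choose (p + 1) : ℝ) := by exact_mod_cast Nat.choose_pos (by omega)
      have h6 : ((p : ℝ) + 1) / (r + 1) = (r.choose p : ℝ) / ((r + 1).choose (p + 1) : ℝ) := by
        rw [div_eq_div_iff hr1.ne' hc.ne']
        linarith
      have h7 : 1 - ((p : ℝ) + 1) / (r + 1) =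
          (r.choose (p + 1) : ℝ) / ((r + 1).choose (p + 1) : ℝ) := by
        rw [h6, eq_div_iff hc.ne', sub_mul, div_mul_cancel₀ _ hc.ne']
        linarith
      rw [h7, h6]
      field_simp
      ring

theorem dR_insert_mem {R : Finset α} {x : α} {F : Finset (Finset α)}
    (hF : (F.filter (x ∈ ·)).Nonempty) {T : Finset α} :
    dR R F (insert x T) ≤ dR (R.erase x) (F.filter (x ∈ ·)) T := by
  obtain ⟨A, hA, h⟩ := exists_dR (R.erase x) hF T
  rw [h]
  rw [mem_filter] at hA
  refine (dR_le hA.1 _).trans (card_le_card ?_)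
  intro y
  simp only [mem_inter, mem_symmDiff, mem_insert, mem_erase]
  rintro ⟨h1, h2⟩
  have hyx : y ≠ x := by
    rintro rfl
    rcases h1 with ⟨_, h3⟩ | ⟨_, h3⟩
    · exact h3 hA.2
    · exact h3 (Or.inl rfl)
  refine ⟨?_, hyx, h2⟩
  tauto

theorem dR_insert_notMem {R : Finset α} {x : α} {F : Finset (Finset α)}
    (hF : (F.filter (x ∉ ·)).Nonempty) {T : Finset α} :
    dR R F (insert x T) ≤ 1 + dR (R.erase x) (F.filter (x ∉ ·)) T := by
  obtain ⟨A, hA, h⟩ := exists_dR (R.erase x) hF T
  rw [h]
  rw [mem_filter] at hA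
  refine (dR_le hA.1 _).trans ?_
  refine (card_le_card (t := insert x (symmDiff T A ∩ R.erase x)) ?_).trans ?_
  · intro y
    simp only [mem_inter, mem_symmDiff, mem_insert, mem_erase]
    rintro ⟨h1, h2⟩
    by_cases hyx : y = x
    · exact Or.inl hyx
    · refine Or.inr ⟨?_, hyx, h2⟩
      tauto
  · refine (card_insert_le _ _).trans ?_
    omega

theorem dR_notMem {R : Finset α} {x : α} {F : Finset (Finset α)}
    (hF : (F.filter (x ∉ ·)).Nonempty) {T : Finset α} (hT : x ∉ T) :
    dR R F T ≤ dR (R.erase x) (F.filter (x ∉ ·)) T := by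
  obtain ⟨A, hA, h⟩ := exists_dR (R.erase x) hF T
  rw [h]
  rw [mem_filter] at hA
  refine (dR_le hA.1 _).trans (card_le_card ?_)
  intro y
  simp only [mem_inter, mem_symmDiff, mem_erase]
  rintro ⟨h1, h2⟩
  have hyx : y ≠ x := by
    rintro rfl
    rcases h1 with ⟨h3, _⟩ | ⟨h3, _⟩
    · exact hT h3
    · exact hA.2 h3
  exact ⟨h1, hyx, h2⟩

theorem dR_mem {R : Finset α} {x : α} {F : Finset (Finset α)}
    (hF : (F.filter (x ∈ ·)).Nonempty) {T : Finset α} :
    dR R F T ≤ 1 + dR (R.erase x) (F.filter (x ∈ ·)) T := by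
  obtain ⟨A, hA, h⟩ := exists_dR (R.erase x) hF T
  rw [h]
  rw [mem_filter] at hA
  refine (dR_le hA.1 _).trans ?_
  refine (card_le_card (t := insert x (symmDiff T A ∩ R.erase x)) ?_).trans ?_
  · intro y
    simp only [mem_inter, mem_symmDiff, mem_insert, mem_erase]
    rintro ⟨h1, h2⟩
    by_cases hyx : y = x
    · exact Or.inl hyx
    · exact Or.inr ⟨h1, hyx, h2⟩
  · refine (card_insert_le _ _).trans ?_
    omega

theorem avg_mono {β : Type*} {s : Finset β} {f g : β → ℝ} (h : ∀ x ∈ s, f x ≤ g x) :
    avg s f ≤ avg s g :=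
  div_le_div_of_nonneg_right (sum_le_sum h) (Nat.cast_nonneg _)

theorem avg_const {β : Type*} {s : Finset β} (hs : s.Nonempty) (c : ℝ) : avg s (fun _ => c) = c := by
  unfold avg
  rw [sum_const, nsmul_eq_mul, mul_div_cancel_left₀]
  exact_mod_cast hs.card_pos.ne'

theorem avg_one_add {β : Type*} {s : Finset β} (hs : s.Nonempty) (f : β → ℝ) :
    avg s (fun x => 1 + f x) = 1 + avg s f := by
  have h : (s.card : ℝ) ≠ 0 := by exact_mod_cast hs.card_pos.ne'
  unfold avg
  rw [sum_add_distrib, sum_const, nsmul_eq_mul, mul_one, add_div, div_self h]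

/-- The cost of the greedy matching is at least the average distance. -/
theorem avgD_le_V (r : ℕ) : ∀ (R : Finset α) (q : ℕ) (F : Finset (Finset α)), R.card = r → q ≤ r →
    F.Nonempty → avgD R q F ≤ V r R q F := by
  induction r with
  | zero =>
    intro R q F hR hq hF
    have h1 : R = ∅ := card_eq_zero.1 hR
    subst h1
    have h2 : ∀ T, dR (∅ : Finset α) F T = 0 := by
      intro T
      obtain ⟨A, hA⟩ := hF
      have := dR_le (R := ∅) hA T
      rw [inter_empty, card_empty] at this
      omega
    simp [avgD, avg, V, h2]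
  | succ r ih =>
    intro R q F hR hq hF
    have hne : R.Nonempty := by
      rw [← card_pos]
      omega
    rw [← avg_const hne (avgD R q F), V]
    refine avg_mono fun x hx => ?_
    have hr : (R.erase x).card = r := by rw [card_erase_of_mem hx, hR, Nat.add_sub_cancel]
    unfold avgD
    rw [avg_split hR hx hq]
    have hr1 : (0 : ℝ) < (r : ℝ) + 1 := by positivity
    have hFx : (F.filter (x ∈ ·)).Nonempty ∨ (F.filter (x ∉ ·)).Nonempty := by
      obtain ⟨A, hA⟩ := hF
      by_cases hxA : x ∈ A
      · exact Or.inl ⟨A, mem_filter.2 ⟨hA, hxA⟩⟩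
      · exact Or.inr ⟨A, mem_filter.2 ⟨hA, hxA⟩⟩
    have hnot : ∀ p, ∀ T ∈ powersetCard p (R.erase x), x ∉ T := fun p T hT h =>
      notMem_erase x R ((mem_powersetCard.1 hT).1 h)
    refine add_le_add (mul_le_mul_of_nonneg_left ?_ (by positivity)) ?_
    · have hne' : (powersetCard (q - 1) (R.erase x)).Nonempty := powersetCard_nonempty.2 (by omega)
      split_ifs with h1
      · refine le_trans ?_ (ih (R.erase x) (q - 1) _ hr (by omega) h1)
        exact avg_mono fun T _ => by exact_mod_cast dR_insert_mem h1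
      · have h2 := hFx.resolve_left h1
        refine le_trans ?_ (add_le_add_right (ih (R.erase x) (q - 1) _ hr (by omega) h2) 1)
        unfold avgD
        rw [← avg_one_add hne']
        exact avg_mono fun T _ => by exact_mod_cast dR_insert_notMem h2
    · rcases Nat.eq_or_lt_of_le hq with h4 | h4
      · have h5 : 1 - (q : ℝ) / (r + 1) = 0 := by
          rw [h4]
          push_cast
          rw [div_self hr1.ne', sub_self]
        rw [h5, zero_mul, zero_mul]
      · have h5 : 0 ≤ 1 - (q : ℝ) / (r + 1) := by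
          rw [sub_nonneg, div_le_one hr1]
          exact_mod_cast hq
        refine mul_le_mul_of_nonneg_left ?_ h5
        have hne' : (powersetCard q (R.erase x)).Nonempty := powersetCard_nonempty.2 (by omega)
        split_ifs with h1
        · refine le_trans ?_ (ih (R.erase x) q _ hr (by omega) h1)
          exact avg_mono fun T hT => by exact_mod_cast dR_notMem h1 (hnot q T hT)
        · have h2 := hFx.resolve_right h1
          refine le_trans ?_ (add_le_add_right (ih (R.erase x) q _ hr (by omega) h2) 1)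
          unfold avgD
          rw [← avg_one_add hne']
          exact avg_mono fun T _ => by exact_mod_cast dR_mem h2

/-- The greedy claim implies (MID). -/
theorem MidBound.of_greedy {m : ℕ} (h : GreedyBound m) : MidBound m := by
  intro F hF a h1 h2 h3
  refine le_trans (avgD_le_V m univ (m / 2) F ?_ (Nat.div_le_self m 2) ?_) (h F hF a h1 h2 h3)
  · rw [card_univ, Fintype.card_fin]
  · rw [← card_pos]
    exact lt_of_lt_of_le (Nat.choose_pos (by omega)) h2

end Pool.Agent.MidF
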