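import Mathlib

/-! # Splitting a family of subsets of `Fin (m + 1)` at one coordinate -/

set_option autoImplicit false

namespace Pool.Agent.MidF

open Finset

variable {m : ℕ}

/-- The subset of `Fin (m+1)` without `0` which corresponds to `B`. -/
def e0 (B : Finset (Fin m)) : Finset (Fin (m + 1)) := B.map (Fin.succEmb m)

/-- The subset of `Fin (m+1)` with `0` which corresponds to `B`. -/
def e1 (B : Finset (Fin m)) : Finset (Fin (m + 1)) := insert 0 (e0 B)

theorem succ_mem_e0 {B : Finset (Fin m)} {i : Fin m} : i.succ ∈ e0 B ↔ i ∈ B := by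
  unfold e0
  rw [mem_map]
  constructor
  · rintro ⟨j, hj, h⟩
    have : j = i := Fin.succ_injective m h
    rwa [← this]
  · intro h
    exact ⟨i, h, rfl⟩

theorem zero_not_mem_e0 {B : Finset (Fin m)} : (0 : Fin (m + 1)) ∉ e0 B := by
  unfold e0
  rw [mem_map]
  rintro ⟨j, _, h⟩
  exact Fin.succ_ne_zero j h

theorem succ_mem_e1 {B : Finset (Fin m)} {i : Fin m} : i.succ ∈ e1 B ↔ i ∈ B := by
  unfold e1
  rw [mem_insert, succ_mem_e0]
  constructor
  · rintro (h | h)
    · exact absurd h (Fin.succ_ne_zero i)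
    · exact h
  · exact Or.inr

theorem zero_mem_e1 {B : Finset (Fin m)} : (0 : Fin (m + 1)) ∈ e1 B := mem_insert_self _ _

/-- The part of `F` without `0`. -/
def F0 (F : Finset (Finset (Fin (m + 1)))) : Finset (Finset (Fin m)) := univ.filter fun B => e0 B ∈ F

/-- The part of `F` with `0`. -/
def F1 (F : Finset (Finset (Fin (m + 1)))) : Finset (Finset (Fin m)) := univ.filter fun B => e1 B ∈ F

theorem mem_F0 {F : Finset (Finset (Fin (m + 1)))} {B : Finset (Fin m)} : B ∈ F0 F ↔ e0 B ∈ F := by
  unfold F0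
  simp

theorem mem_F1 {F : Finset (Finset (Fin (m + 1)))} {B : Finset (Fin m)} : B ∈ F1 F ↔ e1 B ∈ F := by
  unfold F1
  simp

theorem e0_injective : Function.Injective (e0 (m := m)) := by
  intro A B h
  ext i
  rw [← succ_mem_e0, h, succ_mem_e0]

theorem e1_injective : Function.Injective (e1 (m := m)) := by
  intro A B h
  ext i
  rw [← succ_mem_e1, h, succ_mem_e1]

theorem card_split (F : Finset (Finset (Fin (m + 1)))) : F.card = (F0 F).card + (F1 F).card := by
  classical
  have h0 : F.filter (fun A => (0 : Fin (m + 1)) ∉ A) = (F0 F).image e0 := by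
    ext A
    rw [mem_filter, mem_image]
    constructor
    · rintro ⟨hA, h⟩
      have hA' : e0 (univ.filter fun i : Fin m => i.succ ∈ A) = A := by
        ext j
        refine Fin.cases ?_ (fun i => ?_) j
        · exact iff_of_false zero_not_mem_e0 h
        · rw [succ_mem_e0]
          simp
      exact ⟨_, mem_F0.2 (by rw [hA']; exact hA), hA'⟩
    · rintro ⟨B, hB, rfl⟩
      exact ⟨mem_F0.1 hB, zero_not_mem_e0⟩
  have h1 : F.filter (fun A => ¬ (0 : Fin (m + 1)) ∉ A) = (F1 F).image e1 := by
    ext A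
    rw [mem_filter, mem_image]
    constructor
    · rintro ⟨hA, h⟩
      rw [not_not] at h
      have hA' : e1 (univ.filter fun i : Fin m => i.succ ∈ A) = A := by
        ext j
        refine Fin.cases ?_ (fun i => ?_) j
        · exact iff_of_true zero_mem_e1 h
        · rw [succ_mem_e1]
          simp
      exact ⟨_, mem_F1.2 (by rw [hA']; exact hA), hA'⟩
    · rintro ⟨B, hB, rfl⟩
      exact ⟨mem_F1.1 hB, not_not.2 zero_mem_e1⟩
  rw [← Finset.card_filter_add_card_filter_not (s := F) (fun A => (0 : Fin (m + 1)) ∉ A), h0, h1,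
    card_image_of_injective _ e0_injective, card_image_of_injective _ e1_injective]

theorem antichain_F0 {F : Finset (Finset (Fin (m + 1)))}
    (hF : IsAntichain (· ⊆ ·) (F : Set (Finset (Fin (m + 1))))) :
    IsAntichain (· ⊆ ·) (F0 F : Set (Finset (Fin m))) := by
  intro A hA B hB hne hsub
  refine hF (mem_F0.1 hA) (mem_F0.1 hB) (fun h => hne (e0_injective h)) ?_
  intro j
  refine Fin.cases ?_ (fun i => ?_) j
  · intro h
    exact absurd h zero_not_mem_e0
  · intro h
    exact succ_mem_e0.2 (hsub (succ_mem_e0.1 h))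

theorem antichain_F1 {F : Finset (Finset (Fin (m + 1)))}
    (hF : IsAntichain (· ⊆ ·) (F : Set (Finset (Fin (m + 1))))) :
    IsAntichain (· ⊆ ·) (F1 F : Set (Finset (Fin m))) := by
  intro A hA B hB hne hsub
  refine hF (mem_F1.1 hA) (mem_F1.1 hB) (fun h => hne (e1_injective h)) ?_
  intro j
  refine Fin.cases ?_ (fun i => ?_) j
  · intro _
    exact zero_mem_e1
  · intro h
    exact succ_mem_e1.2 (hsub (succ_mem_e1.1 h))

theorem symmDiff_e0 (A B : Finset (Fin m)) : (symmDiff (e0 A) (e0 B)).card = (symmDiff A B).card := by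
  have h : symmDiff (e0 A) (e0 B) = e0 (symmDiff A B) := by
    ext j
    refine Fin.cases ?_ (fun i => ?_) j
    · simp [mem_symmDiff, zero_not_mem_e0]
    · simp [mem_symmDiff, succ_mem_e0]
  rw [h, e0, card_map]

theorem symmDiff_e1 (A B : Finset (Fin m)) : (symmDiff (e1 A) (e1 B)).card = (symmDiff A B).card := by
  have h : symmDiff (e1 A) (e1 B) = e0 (symmDiff A B) := by
    ext j
    refine Fin.cases ?_ (fun i => ?_) j
    · simp [mem_symmDiff, zero_not_mem_e0, zero_mem_e1]
    · simp [mem_symmDiff, succ_mem_e0, succ_mem_e1]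
  rw [h, e0, card_map]

theorem symmDiff_e01 (A B : Finset (Fin m)) :
    (symmDiff (e0 A) (e1 B)).card = (symmDiff A B).card + 1 := by
  have h : symmDiff (e0 A) (e1 B) = insert 0 (e0 (symmDiff A B)) := by
    ext j
    refine Fin.cases ?_ (fun i => ?_) j
    · simp [mem_symmDiff, zero_not_mem_e0, zero_mem_e1]
    · simp [mem_symmDiff, succ_mem_e0, succ_mem_e1]
  rw [h, card_insert_of_notMem zero_not_mem_e0, e0, card_map]

end Pool.Agent.MidF
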