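import Pool.Agent.MidF.Even
import Pool.Agent.MidF.Split

/-! # (MID) for `m` implies the bound for antichains of diameter at most `2 s` in `2^(m+1)` (helper13) -/

set_option autoImplicit false

namespace Pool.Agent.MidF

open Finset

theorem even_odd {m : ℕ} (hm : Even m) (h : MidBound m) {s : ℕ} (hs : 2 * s ≤ m)
    {F : Finset (Finset (Fin (m + 1)))} (hF : IsAntichain (· ⊆ ·) (F : Set (Finset (Fin (m + 1)))))
    (hd : ∀ A ∈ F, ∀ B ∈ F, (symmDiff A B).card ≤ 2 * s) : F.card ≤ (m + 1).choose s := by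
  have hF0 := antichain_F0 hF
  have hF1 := antichain_F1 hF
  have hd0 : ∀ A ∈ F0 F, ∀ B ∈ F0 F, (symmDiff A B).card ≤ 2 * s := by
    intro A hA B hB
    rw [← symmDiff_e0]
    exact hd _ (mem_F0.1 hA) _ (mem_F0.1 hB)
  have hd1 : ∀ A ∈ F1 F, ∀ B ∈ F1 F, (symmDiff A B).card ≤ 2 * s := by
    intro A hA B hB
    rw [← symmDiff_e1]
    exact hd _ (mem_F1.1 hA) _ (mem_F1.1 hB)
  have hd01 : ∀ A ∈ F0 F, ∀ B ∈ F1 F, (symmDiff A B).card + 1 ≤ 2 * s := by
    intro A hA B hB
    rw [← symmDiff_e01]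
    exact hd _ (mem_F0.1 hA) _ (mem_F1.1 hB)
  have hc0 := even_even hm h hs hF0 hd0
  have hc1 := even_even hm h hs hF1 hd1
  rw [card_split F]
  rcases Finset.eq_empty_or_nonempty (F0 F) with he0 | hn0
  · rw [he0, card_empty, zero_add]
    exact hc1.trans (Nat.choose_le_choose s (Nat.le_succ m))
  rcases Finset.eq_empty_or_nonempty (F1 F) with he1 | hn1
  · rw [he1, card_empty, add_zero]
    exact hc0.trans (Nat.choose_le_choose s (Nat.le_succ m))
  obtain ⟨A, hA⟩ := hn0
  obtain ⟨B, hB⟩ := hn1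
  have h1 := hd01 A hA B hB
  obtain ⟨a, rfl⟩ : ∃ a, s = a + 1 := ⟨s - 1, by omega⟩
  rw [Nat.choose_succ_succ']
  by_contra hcon
  push Not at hcon
  have h2 : 2 * a + 2 ≤ m := by omega
  have h3 := h (F0 F) hF0 a h2 (by omega) hc0
  have h4 := h (F1 F) hF1 a h2 (by omega) hc1
  have h5 := cross (D := 2 * a + 1) hm ⟨A, hA⟩ ⟨B, hB⟩ (fun A hA B hB => by
    have := hd01 A hA B hB
    omega)
  unfold kap at h3 h4
  have h6 : (0 : ℝ) < (m.choose (a + 1) : ℝ) - m.choose a := by
    have : (m.choose a : ℝ) < m.choose (a + 1) := by exact_mod_cast choose_lt_choose h2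
    linarith
  have h7 : (1 : ℝ) < (((F0 F).card : ℝ) - m.choose a) / ((m.choose (a + 1) : ℝ) - m.choose a) +
      (((F1 F).card : ℝ) - m.choose a) / ((m.choose (a + 1) : ℝ) - m.choose a) := by
    rw [← add_div, lt_div_iff₀ h6]
    have h8 : (m.choose a : ℝ) + m.choose (a + 1) < (F0 F).card + (F1 F).card := by exact_mod_cast hcon
    linarith
  push_cast at h5
  linarith

/-- (MID) for all even `m` implies the bound for all antichains of diameter at most `2 s < n`. -/
theorem even_half (h : ∀ m : ℕ, Even m → MidBound m) {n s : ℕ} (hs : 2 * s < n)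
    {F : Finset (Finset (Fin n))} (hF : IsAntichain (· ⊆ ·) (F : Set (Finset (Fin n))))
    (hd : ∀ A ∈ F, ∀ B ∈ F, (symmDiff A B).card ≤ 2 * s) : F.card ≤ n.choose s := by
  rcases Nat.even_or_odd n with hn | hn
  · exact even_even hn (h n hn) hs.le hF hd
  · obtain ⟨c, rfl⟩ := hn
    exact even_odd (m := 2 * c) (even_two_mul c) (h _ (even_two_mul c)) (by omega) hF hd

/-- (MID) for all even `m` implies Q1 of MP_f155e9_co for `n + k` even. -/
theorem q1_even (h : ∀ m : ℕ, Even m → MidBound m) {n k : ℕ} (h1 : 1 ≤ k) (hk : k ≤ n)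
    (he : Even (n + k)) {F : Finset (Finset (Fin n))}
    (hF : IsAntichain (· ⊆ ·) (F : Set (Finset (Fin n))))
    (hd : ∀ A ∈ F, ∀ B ∈ F, (symmDiff A B).card ≤ n - k) : F.card ≤ n.choose ((n + k + 1) / 2) := by
  obtain ⟨c, hc⟩ := he
  have h2 : n - k = 2 * (n - c) := by omega
  have h3 : (n + k + 1) / 2 = c := by omega
  rw [h3, ← Nat.choose_symm (by omega : c ≤ n)]
  exact even_half h (by omega) hF fun A hA B hB => (hd A hA B hB).trans h2.le

end Pool.Agent.MidF
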