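import Pool.Agent.MidF.Odd

/-!
# Line T (helper31): the statement (*) and its tie lines (T_j) imply (MID)

`StarBound m` is (*): for every 1-Lipschitz `g` on the subsets of an `m`-set (`m` even) and every nonempty antichain
`F` the sum of `g` over `F` is at most `max_j C(m,j) (E_mid g + m/2 - j)`.  `TieDual m j` is (T_j) for functions,
`TieBound m j` its consequence for the distance to `F`.
-/

set_option autoImplicit false

namespace Pool.Agent.MidF

open Finset

/-- `g` is 1-Lipschitz for the symmetric difference distance. -/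
def Lip {m : ℕ} (g : Finset (Fin m) → ℝ) : Prop :=
  ∀ A B : Finset (Fin m), g A ≤ g B + (symmDiff A B).card

/-- The mean of `g` over the middle level. -/
noncomputable def mid {m : ℕ} (g : Finset (Fin m) → ℝ) : ℝ := avg (powersetCard (m / 2) univ) g

/-- The statement (*) of helper31. -/
def StarBound (m : ℕ) : Prop :=
  ∀ g : Finset (Fin m) → ℝ, Lip g → ∀ F : Finset (Finset (Fin m)), F.Nonempty →
    IsAntichain (· ⊆ ·) (F : Set (Finset (Fin m))) →
      ∃ j, 2 * j ≤ m ∧ ∑ A ∈ F, g A ≤ (m.choose j : ℝ) * (mid g + (m : ℝ) / 2 - j)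

/-- `sigma_j = j / (m - 2 j + 1)`. -/
noncomputable def sig (m j : ℕ) : ℝ := (j : ℝ) / ((m : ℝ) - 2 * j + 1)

/-- The statement (T_j) of helper31 for functions. -/
def TieDual (m j : ℕ) : Prop :=
  ∀ g : Finset (Fin m) → ℝ, Lip g → mid g = sig m j - ((m : ℝ) / 2 - j) →
    ∀ F : Finset (Finset (Fin m)), F.Nonempty → IsAntichain (· ⊆ ·) (F : Set (Finset (Fin m))) →
      ∑ A ∈ F, g A ≤ (m.choose j : ℝ) * sig m j

/-- The statement (T_j) for the distance to the family. -/
def TieBound (m j : ℕ) : Prop :=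
  ∀ F : Finset (Finset (Fin m)), F.Nonempty → IsAntichain (· ⊆ ·) (F : Set (Finset (Fin m))) →
    (F.card : ℝ) * avgD univ (m / 2) F ≤
      ((m : ℝ) / 2 - j) * F.card + sig m j * ((m.choose j : ℝ) - F.card)

theorem dR_lip {m : ℕ} {F : Finset (Finset (Fin m))} (hF : F.Nonempty) (A B : Finset (Fin m)) :
    dR univ F A ≤ dR univ F B + (symmDiff A B).card := by
  obtain ⟨C, hC, h⟩ := exists_dR univ hF B
  rw [h, inter_univ]
  refine (dR_le hC A).trans ?_
  rw [inter_univ]
  refine (card_le_card ?_).trans ((card_union_le (symmDiff B C) (symmDiff A B)))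
  intro x
  simp only [mem_symmDiff, mem_union]
  tauto

theorem dR_self {m : ℕ} {F : Finset (Finset (Fin m))} {A : Finset (Fin m)} (hA : A ∈ F) : dR univ F A = 0 := by
  have := dR_le (R := univ) hA A
  rw [symmDiff_self] at this
  simpa using this

theorem avg_const_sub {β : Type*} {s : Finset β} (hs : s.Nonempty) (t : ℝ) (f : β → ℝ) :
    avg s (fun x => t - f x) = t - avg s f := by
  unfold avg
  have : (s.card : ℝ) ≠ 0 := by
    have := hs.card_pos
    positivity
  rw [sum_sub_distrib, sum_const, nsmul_eq_mul]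
  field_simp

theorem mid_nonempty (m : ℕ) : (powersetCard (m / 2) (univ : Finset (Fin m))).Nonempty := by
  rw [powersetCard_nonempty, card_univ, Fintype.card_fin]
  exact Nat.div_le_self m 2

theorem TieBound.of_dual {m j : ℕ} (h : TieDual m j) : TieBound m j := by
  intro F hF hA
  set t : ℝ := sig m j - ((m : ℝ) / 2 - j) + avgD univ (m / 2) F with ht
  have h1 : mid (fun A => t - (dR univ F A : ℝ)) = sig m j - ((m : ℝ) / 2 - j) := by
    unfold mid
    rw [avg_const_sub (mid_nonempty m)]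
    change t - avgD univ (m / 2) F = _
    rw [ht]
    ring
  have h2 := h (fun A => t - (dR univ F A : ℝ)) (by
    intro A B
    have h3 := dR_lip hF B A
    rw [symmDiff_comm] at h3
    have h4 : (dR univ F B : ℝ) ≤ dR univ F A + (symmDiff A B).card := by exact_mod_cast h3
    linarith) h1 F hF hA
  have h5 : ∑ A ∈ F, (t - (dR univ F A : ℝ)) = F.card * t := by
    rw [sum_congr rfl (fun A hA => by rw [dR_self hA] : ∀ A ∈ F, t - (dR univ F A : ℝ) = t - ((0 : ℕ) : ℝ)),
      sum_const, nsmul_eq_mul]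
    simp
  rw [h5, ht] at h2
  linarith

theorem MidBound.of_tie {m : ℕ} (h : ∀ j, 1 ≤ j → 2 * j ≤ m → TieBound m j) : MidBound m := by
  intro F hF a ha h1 h2
  have hpos : 0 < m.choose a := Nat.choose_pos (by omega)
  have hne : F.Nonempty := by
    rw [← card_pos]
    omega
  have h3 := h (a + 1) (by omega) (by omega) F hne hF
  have hN : (0 : ℝ) < F.card := by
    have := hne.card_pos
    exact_mod_cast this
  have hlt : (m.choose a : ℝ) < m.choose (a + 1) := by exact_mod_cast choose_lt_choose ha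
  have hd : (0 : ℝ) < (m.choose (a + 1) : ℝ) - m.choose a := by linarith
  have hm : (0 : ℝ) < (m : ℝ) - 2 * (a + 1 : ℕ) + 1 := by
    have : ((2 * a + 2 : ℕ) : ℝ) ≤ m := by exact_mod_cast ha
    push_cast at this ⊢
    linarith
  have hs : sig m (a + 1) = (m.choose a : ℝ) / ((m.choose (a + 1) : ℝ) - m.choose a) := by
    unfold sig
    rw [div_eq_div_iff hm.ne' hd.ne']
    have h4 : ((m.choose (a + 1) : ℕ) : ℝ) * (a + 1 : ℕ) = (m.choose a : ℝ) * ((m : ℝ) - a) := by
      have h5 := Nat.choose_succ_right_eq m a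
      have h6 : ((m - a : ℕ) : ℝ) = (m : ℝ) - a := by
        rw [Nat.cast_sub (by omega)]
      rw [← h6]
      exact_mod_cast h5
    push_cast at h4 ⊢
    linarith
  rw [hs] at h3
  have hN1 : (m.choose a : ℝ) ≤ F.card := by exact_mod_cast h1
  have hN2 : (F.card : ℝ) ≤ m.choose (a + 1) := by exact_mod_cast h2
  have h7 : (F.card : ℝ) * avgD univ (m / 2) F ≤ F.card * kap m a F.card := by
    refine h3.trans ?_
    unfold kap
    have h8 : (m.choose a : ℝ) / ((m.choose (a + 1) : ℝ) - m.choose a) * ((m.choose (a + 1) : ℝ) - F.card) ≤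
        (F.card : ℝ) / ((m.choose (a + 1) : ℝ) - m.choose a) * ((m.choose (a + 1) : ℝ) - F.card) := by
      refine mul_le_mul_of_nonneg_right ?_ (by linarith)
      exact div_le_div_of_nonneg_right hN1 hd.le
    refine (add_le_add_right h8 _).trans (le_of_eq ?_)
    push_cast
    field_simp
    ring
  exact le_of_mul_le_mul_left h7 hN

theorem choose_succ_real {m l : ℕ} (h : l ≤ m) :
    ((m.choose (l + 1) : ℕ) : ℝ) * ((l : ℝ) + 1) = (m.choose l : ℝ) * ((m : ℝ) - l) := by
  have h5 := Nat.choose_succ_right_eq m l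
  have h6 : ((m - l : ℕ) : ℝ) = (m : ℝ) - l := by
    rw [Nat.cast_sub h]
  rw [← h6]
  exact_mod_cast h5

/-- Below `j` the binomials grow at least by the factor `1 + x` per step, `x = (m - 2 j + 1) / j`. -/
theorem le_choose_below {m j : ℕ} (hj : 1 ≤ j) (hm : 2 * j ≤ m) (r : ℕ) : ∀ i, i + r = j →
    (m.choose i : ℝ) * (1 + r * (((m : ℝ) - 2 * j + 1) / j)) ≤ m.choose j := by
  have hj0 : (0 : ℝ) < j := by exact_mod_cast hj
  have hx : (0 : ℝ) ≤ ((m : ℝ) - 2 * j + 1) / j := by
    refine div_nonneg ?_ hj0.le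
    have : ((2 * j : ℕ) : ℝ) ≤ m := by exact_mod_cast hm
    push_cast at this
    linarith
  set x : ℝ := ((m : ℝ) - 2 * j + 1) / j with hxdef
  induction r with
  | zero =>
    intro i hi
    have : i = j := by omega
    subst this
    simp
  | succ r ih =>
    intro i hi
    have h1 := ih (i + 1) (by omega)
    have h2 := choose_succ_real (m := m) (l := i) (by omega)
    have hi1 : (0 : ℝ) < (i : ℝ) + 1 := by positivity
    have hij : ((i : ℝ) + 1) ≤ j := by
      have : i + 1 ≤ j := by omega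
      exact_mod_cast this
    have h3 : (m.choose i : ℝ) * (1 + x) ≤ m.choose (i + 1) := by
      have h4 : (1 + x) * ((i : ℝ) + 1) ≤ (m : ℝ) - i := by
        have h5 : x * j = (m : ℝ) - 2 * j + 1 := by
          rw [hxdef]
          field_simp
        have h6 : (1 + x) * ((i : ℝ) + 1) ≤ (1 + x) * j := mul_le_mul_of_nonneg_left hij (by linarith)
        nlinarith
      refine le_of_mul_le_mul_right ?_ hi1
      rw [h2, mul_assoc]
      exact mul_le_mul_of_nonneg_left h4 (Nat.cast_nonneg _)
    have hc : (0 : ℝ) ≤ m.choose i := Nat.cast_nonneg _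
    have hr : (0 : ℝ) ≤ (r : ℝ) := Nat.cast_nonneg _
    calc (m.choose i : ℝ) * (1 + ((r + 1 : ℕ) : ℝ) * x) ≤ (m.choose i : ℝ) * (1 + x) * (1 + r * x) := by
          rw [mul_assoc]
          refine mul_le_mul_of_nonneg_left ?_ hc
          push_cast
          nlinarith [mul_nonneg hr (mul_nonneg hx hx)]
      _ ≤ (m.choose (i + 1) : ℝ) * (1 + r * x) := mul_le_mul_of_nonneg_right h3 (by positivity)
      _ ≤ m.choose j := h1

/-- Above `j` the binomials grow at most by the factor `1 + x` per step. -/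
theorem choose_above_le {m j : ℕ} (hj : 1 ≤ j) (hm : 2 * j ≤ m) (r : ℕ) : j + r ≤ m →
    (m.choose (j + r) : ℝ) * (1 - r * (((m : ℝ) - 2 * j + 1) / j)) ≤ m.choose j := by
  have hj0 : (0 : ℝ) < j := by exact_mod_cast hj
  have hx : (0 : ℝ) ≤ ((m : ℝ) - 2 * j + 1) / j := by
    refine div_nonneg ?_ hj0.le
    have : ((2 * j : ℕ) : ℝ) ≤ m := by exact_mod_cast hm
    push_cast at this
    linarith
  set x : ℝ := ((m : ℝ) - 2 * j + 1) / j with hxdef
  induction r with
  | zero =>
    intro _
    simp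
  | succ r ih =>
    intro hr
    have h1 := ih (by omega)
    have h2 := choose_succ_real (m := m) (l := j + r) (by omega)
    have hi1 : (0 : ℝ) < ((j + r : ℕ) : ℝ) + 1 := by positivity
    have hij : (j : ℝ) ≤ ((j + r : ℕ) : ℝ) + 1 := by
      push_cast
      have : (0 : ℝ) ≤ r := Nat.cast_nonneg _
      linarith
    have h3 : (m.choose (j + r + 1) : ℝ) ≤ m.choose (j + r) * (1 + x) := by
      have h4 : (m : ℝ) - (j + r : ℕ) ≤ (1 + x) * (((j + r : ℕ) : ℝ) + 1) := by
        have h5 : x * j = (m : ℝ) - 2 * j + 1 := by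
          rw [hxdef]
          field_simp
        have h6 : (1 + x) * j ≤ (1 + x) * (((j + r : ℕ) : ℝ) + 1) := mul_le_mul_of_nonneg_left hij (by linarith)
        push_cast at h6 ⊢
        have : (0 : ℝ) ≤ r := Nat.cast_nonneg _
        nlinarith
      refine le_of_mul_le_mul_right ?_ hi1
      rw [h2, mul_assoc]
      exact mul_le_mul_of_nonneg_left h4 (Nat.cast_nonneg _)
    have hc : (0 : ℝ) ≤ m.choose (j + r) := Nat.cast_nonneg _
    have hr0 : (0 : ℝ) ≤ (r : ℝ) := Nat.cast_nonneg _
    rcases le_or_gt (1 - ((r + 1 : ℕ) : ℝ) * x) 0 with hneg | hpos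
    · refine (mul_nonpos_of_nonneg_of_nonpos (Nat.cast_nonneg _) hneg).trans (Nat.cast_nonneg _)
    · calc (m.choose (j + (r + 1)) : ℝ) * (1 - ((r + 1 : ℕ) : ℝ) * x) ≤
          (m.choose (j + r) * (1 + x)) * (1 - ((r + 1 : ℕ) : ℝ) * x) := by
            refine mul_le_mul_of_nonneg_right ?_ hpos.le
            exact h3
        _ ≤ (m.choose (j + r) : ℝ) * (1 - r * x) := by
            rw [mul_assoc]
            refine mul_le_mul_of_nonneg_left ?_ hc
            push_cast
            nlinarith [mul_nonneg hr0 (mul_nonneg hx hx), mul_nonneg hx hx]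
        _ ≤ m.choose j := h1

/-- (*) implies all tie lines. -/
theorem TieDual.of_star {m : ℕ} (h : StarBound m) {j : ℕ} (hj : 1 ≤ j) (hm : 2 * j ≤ m) : TieDual m j := by
  intro g hg hmid F hF hA
  obtain ⟨i, hi, hle⟩ := h g hg F hF hA
  refine hle.trans ?_
  rw [hmid]
  have hj0 : (0 : ℝ) < j := by exact_mod_cast hj
  have hd : (0 : ℝ) < (m : ℝ) - 2 * j + 1 := by
    have : ((2 * j : ℕ) : ℝ) ≤ m := by exact_mod_cast hm
    push_cast at this
    linarith
  have hs : 0 < sig m j := div_pos hj0 hd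
  have hsx : sig m j * (((m : ℝ) - 2 * j + 1) / j) = 1 := by
    unfold sig
    rw [div_mul_div_comm, mul_comm (j : ℝ), div_self (mul_ne_zero hd.ne' hj0.ne')]
  rcases le_total i j with hij | hij
  · obtain ⟨r, hr⟩ := Nat.exists_eq_add_of_le hij
    have h1 := le_choose_below hj hm r i hr.symm
    have h2 : ((m.choose i : ℝ) * (1 + r * (((m : ℝ) - 2 * j + 1) / j))) * sig m j ≤ m.choose j * sig m j :=
      mul_le_mul_of_nonneg_right h1 hs.le
    have h3 : (j : ℝ) = i + r := by exact_mod_cast hr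
    refine le_trans (le_of_eq ?_) h2
    have h4 : ((m.choose i : ℝ) * (1 + r * (((m : ℝ) - 2 * j + 1) / j))) * sig m j =
        (m.choose i : ℝ) * (sig m j + r * (sig m j * (((m : ℝ) - 2 * j + 1) / j))) := by ring
    rw [h4, hsx]
    have h5 : (r : ℝ) = j - i := by linarith
    rw [h5]
    ring
  · obtain ⟨r, hr⟩ := Nat.exists_eq_add_of_le hij
    subst hr
    have h1 := choose_above_le hj hm r (by omega)
    have h2 : ((m.choose (j + r) : ℝ) * (1 - r * (((m : ℝ) - 2 * j + 1) / j))) * sig m j ≤ m.choose j * sig m j :=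
      mul_le_mul_of_nonneg_right h1 hs.le
    refine le_trans (le_of_eq ?_) h2
    have h4 : ((m.choose (j + r) : ℝ) * (1 - r * (((m : ℝ) - 2 * j + 1) / j))) * sig m j =
        (m.choose (j + r) : ℝ) * (sig m j - r * (sig m j * (((m : ℝ) - 2 * j + 1) / j))) := by ring
    rw [h4, hsx]
    push_cast
    ring

/-- (*) implies (MID). -/
theorem MidBound.of_star {m : ℕ} (h : StarBound m) : MidBound m :=
  MidBound.of_tie fun _ hj hm => TieBound.of_dual (TieDual.of_star h hj hm)

/-- The tie lines `(T_j)` for functions and all even `m` imply Q1 of MP_f155e9_co for `n + k` even. -/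
theorem q1_even_of_tie (h : ∀ m j : ℕ, Even m → 1 ≤ j → 2 * j ≤ m → TieDual m j) {n k : ℕ} (h1 : 1 ≤ k) (hk : k ≤ n)
    (he : Even (n + k)) {F : Finset (Finset (Fin n))}
    (hF : IsAntichain (· ⊆ ·) (F : Set (Finset (Fin n))))
    (hd : ∀ A ∈ F, ∀ B ∈ F, (symmDiff A B).card ≤ n - k) : F.card ≤ n.choose ((n + k + 1) / 2) :=
  q1_even (fun m hm => MidBound.of_tie fun j hj hjm => TieBound.of_dual (h m j hm hj hjm)) h1 hk he hF hd

end Pool.Agent.MidF
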